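import Pool.Agent.Lib.MP_100a6c_lc.IfaceC

/-!
# PC: `H(Θ)` exists in `V^B`
-/

universe u

open scoped symmDiff
open Cardinal

namespace Pool.Agent.Lib.MP_100a6c_lc.H90

open Pool.Agent.Lib.MP_100a6c_lc BName

variable {B : Type u} [CompleteBooleanAlgebra B]

/-- An enumerated transitive set is determined by the values of the relations between the
enumerated elements. -/
theorem key {Y : Type u} {Γ : B} {t1 t2 : BName B} {e1 e2 : Y → BName B}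
    (h1 : Γ ≤ (VB B).isTrans t1) (h2 : Γ ≤ (VB B).isTrans t2) (n1 : Enum Γ t1 e1)
    (n2 : Enum Γ t2 e2) (hm : ∀ ξ, Γ ⊓ bmem (e1 ξ) t1 = Γ ⊓ bmem (e2 ξ) t2)
    (hE : ∀ ξ η, (Γ ⊓ bmem (e1 ξ) t1) ⊓ (Γ ⊓ bmem (e1 η) t1) ⊓ bmem (e1 ξ) (e1 η) =
      (Γ ⊓ bmem (e2 ξ) t2) ⊓ (Γ ⊓ bmem (e2 η) t2) ⊓ bmem (e2 ξ) (e2 η)) (y : BName B) :
    ∀ z ξ, (Γ ⊓ bmem (e1 ξ) t1) ⊓ beq y (e1 ξ) ⊓ beq z (e2 ξ) ≤ beq y z := by
  induction y with
  | mk ι a p ih =>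
    intro z ξ
    set y : BName B := mk ι a p with hy
    set Δ : B := (Γ ⊓ bmem (e1 ξ) t1) ⊓ beq y (e1 ξ) ⊓ beq z (e2 ξ) with hΔ
    have hΔΓ : Δ ≤ Γ := inf_le_left.trans (inf_le_left.trans inf_le_left)
    have hΔ1 : Δ ≤ bmem (e1 ξ) t1 := inf_le_left.trans (inf_le_left.trans inf_le_right)
    have hΔm : Δ ≤ Γ ⊓ bmem (e1 ξ) t1 := inf_le_left.trans inf_le_left
    have hΔ2 : Δ ≤ bmem (e2 ξ) t2 := hΔm.trans ((hm ξ).le.trans inf_le_right)
    have hΔy : Δ ≤ beq y (e1 ξ) := inf_le_left.trans inf_le_right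
    have hΔz : Δ ≤ beq z (e2 ξ) := inf_le_right
    refine le_trans (le_inf ?_ ?_) (sub_inf_sub_le y z)
    · rw [le_sub_iff]
      intro i
      have e0 : Δ ⊓ y.vl i ≤ bmem (y.nm i) (e1 ξ) :=
        (ext_mem_right _).of_le (inf_le_left.trans hΔy) (inf_le_right.trans (vl_le_bmem y i))
      have e1t : Δ ⊓ y.vl i ≤ bmem (y.nm i) t1 :=
        sub_apply (iInf_himp_apply h1 (e1 ξ) (inf_le_left.trans hΔΓ) (inf_le_left.trans hΔ1))
          (y.nm i) le_rfl e0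
      have e2t := (le_inf (inf_le_left.trans hΔΓ) e1t).trans (n1 (y.nm i))
      refine (le_inf le_rfl e2t).trans ?_
      rw [inf_iSup_eq]
      refine iSup_le fun η => ?_
      set Δ' : B := Δ ⊓ y.vl i ⊓ beq (y.nm i) (e1 η) with hΔ'
      have a1 : Δ' ≤ Γ ⊓ bmem (e1 η) t1 := le_inf ((inf_le_left.trans inf_le_left).trans hΔΓ)
        ((ext_mem_left t1).of_le inf_le_right (inf_le_left.trans e1t))
      have a2 : Δ' ≤ bmem (e1 η) (e1 ξ) := (ext_mem_left _).of_le inf_le_right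
        (inf_le_left.trans e0)
      have a3 : Δ' ≤ bmem (e2 η) (e2 ξ) := by
        have := (le_inf (le_inf a1 ((inf_le_left.trans inf_le_left).trans hΔm)) a2).trans
          (hE η ξ).le
        exact this.trans inf_le_right
      have a4 : Δ' ≤ bmem (e2 η) z :=
        (ext_mem_right _).of_le' ((inf_le_left.trans inf_le_left).trans hΔz) a3
      have a5 : Δ' ≤ beq (y.nm i) (e2 η) :=
        (le_inf (le_inf a1 inf_le_right) (by rw [beq_refl]; exact le_top)).trans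
          (ih i (e2 η) η)
      exact (ext_mem_left z).of_le' a5 a4
    · rw [le_sub_iff]
      intro j
      have e0 : Δ ⊓ z.vl j ≤ bmem (z.nm j) (e2 ξ) :=
        (ext_mem_right _).of_le (inf_le_left.trans hΔz) (inf_le_right.trans (vl_le_bmem z j))
      have e1t : Δ ⊓ z.vl j ≤ bmem (z.nm j) t2 :=
        sub_apply (iInf_himp_apply h2 (e2 ξ) (inf_le_left.trans hΔΓ) (inf_le_left.trans hΔ2))
          (z.nm j) le_rfl e0
      have e2t := (le_inf (inf_le_left.trans hΔΓ) e1t).trans (n2 (z.nm j))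
      refine (le_inf le_rfl e2t).trans ?_
      rw [inf_iSup_eq]
      refine iSup_le fun η => ?_
      set Δ' : B := Δ ⊓ z.vl j ⊓ beq (z.nm j) (e2 η) with hΔ'
      have a1' : Δ' ≤ Γ ⊓ bmem (e2 η) t2 := le_inf ((inf_le_left.trans inf_le_left).trans hΔΓ)
        ((ext_mem_left t2).of_le inf_le_right (inf_le_left.trans e1t))
      have a1 : Δ' ≤ Γ ⊓ bmem (e1 η) t1 := a1'.trans (hm η).ge
      have a2 : Δ' ≤ bmem (e2 η) (e2 ξ) := (ext_mem_left _).of_le inf_le_right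
        (inf_le_left.trans e0)
      have a2' : Δ' ≤ Γ ⊓ bmem (e2 ξ) t2 :=
        ((inf_le_left.trans inf_le_left).trans hΔm).trans (hm ξ).le
      have a3 : Δ' ≤ bmem (e1 η) (e1 ξ) := by
        have := (le_inf (le_inf a1' a2') a2).trans (hE η ξ).ge
        exact this.trans inf_le_right
      have a4 : Δ' ≤ bmem (e1 η) y :=
        (ext_mem_right _).of_le' ((inf_le_left.trans inf_le_left).trans hΔy) a3
      rw [bmem_def] at a4
      refine (le_inf le_rfl a4).trans ?_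
      rw [inf_iSup_eq]
      refine iSup_le fun i => ?_
      have b1 : Δ' ⊓ (y.vl i ⊓ beq (e1 η) (y.nm i)) ≤ beq (y.nm i) (e2 η) := by
        refine (le_inf (le_inf (inf_le_left.trans a1) ?_) (by rw [beq_refl]; exact le_top)).trans
          (ih i (e2 η) η)
        refine (inf_le_right.trans inf_le_right).trans ?_
        rw [beq_symm]; rfl
      have b2 : Δ' ⊓ (y.vl i ⊓ beq (e1 η) (y.nm i)) ≤ beq (z.nm j) (e2 η) :=
        inf_le_left.trans inf_le_right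
      have b3 : Δ' ⊓ (y.vl i ⊓ beq (e1 η) (y.nm i)) ≤ bmem (y.nm i) y :=
        (inf_le_right.trans inf_le_left).trans (vl_le_bmem y i)
      exact (ext_mem_left y).of_le' b2 ((ext_mem_left y).of_le b1 b3)

/-- One inclusion between sets of the same code. -/
theorem code_sub {Y : Type u} {Γ : B} {t1 t2 x1 x2 : BName B} {e1 e2 : Y → BName B}
    (h1 : Γ ≤ (VB B).isTrans t1) (h2 : Γ ≤ (VB B).isTrans t2) (n1 : Enum Γ t1 e1)
    (n2 : Enum Γ t2 e2) (hm : ∀ ξ, Γ ⊓ bmem (e1 ξ) t1 = Γ ⊓ bmem (e2 ξ) t2)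
    (hE : ∀ ξ η, (Γ ⊓ bmem (e1 ξ) t1) ⊓ (Γ ⊓ bmem (e1 η) t1) ⊓ bmem (e1 ξ) (e1 η) =
      (Γ ⊓ bmem (e2 ξ) t2) ⊓ (Γ ⊓ bmem (e2 η) t2) ⊓ bmem (e2 ξ) (e2 η))
    (s1 : Γ ≤ (VB B).sub x1 t1)
    (ha : ∀ ξ, (Γ ⊓ bmem (e1 ξ) t1) ⊓ bmem (e1 ξ) x1 = (Γ ⊓ bmem (e2 ξ) t2) ⊓ bmem (e2 ξ) x2) :
    Γ ≤ (VB B).sub x1 x2 := by
  refine le_iInf fun z => ?_
  rw [le_himp_iff]
  change Γ ⊓ bmem z x1 ≤ bmem z x2
  have b0 : Γ ⊓ bmem z x1 ≤ bmem z t1 := sub_apply s1 z inf_le_left inf_le_right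
  have b1 := (le_inf inf_le_left b0).trans (n1 z)
  refine (le_inf le_rfl b1).trans ?_
  rw [inf_iSup_eq]
  refine iSup_le fun η => ?_
  set Δ : B := Γ ⊓ bmem z x1 ⊓ beq z (e1 η) with hΔ
  have a1 : Δ ≤ Γ ⊓ bmem (e1 η) t1 := le_inf (inf_le_left.trans inf_le_left)
    ((ext_mem_left t1).of_le inf_le_right (inf_le_left.trans b0))
  have a2 : Δ ≤ bmem (e1 η) x1 :=
    (ext_mem_left x1).of_le inf_le_right (inf_le_left.trans inf_le_right)
  have a3 : Δ ≤ bmem (e2 η) x2 := ((le_inf a1 a2).trans (ha η).le).trans inf_le_right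
  have a4 : Δ ≤ beq z (e2 η) :=
    (le_inf (le_inf a1 inf_le_right) (by rw [beq_refl]; exact le_top)).trans
      (key h1 h2 n1 n2 hm hE z (e2 η) η)
  exact (ext_mem_left x2).of_le' a4 a3

/-- Codes of sets with an enumerated transitive superset. -/
structure Code (B : Type u) (o : Ordinal.{u}) where
  q : o.ToType
  Γ : B
  m : (Ordinal.ToType.mk.symm q).1.ToType → B
  E : (Ordinal.ToType.mk.symm q).1.ToType → (Ordinal.ToType.mk.symm q).1.ToType → B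
  a : (Ordinal.ToType.mk.symm q).1.ToType → B

/-- `x` has the code `i`. -/
def HasCode {o : Ordinal.{u}} (i : Code B o) (x : BName B) : Prop :=
  ∃ (t : BName B) (e : (Ordinal.ToType.mk.symm i.q).1.ToType → BName B),
    i.Γ ≤ (VB B).isTrans t ∧ i.Γ ≤ (VB B).sub x t ∧ Enum i.Γ t e ∧
    (∀ ξ, i.m ξ = i.Γ ⊓ bmem (e ξ) t) ∧
    (∀ ξ η, i.E ξ η = (i.Γ ⊓ bmem (e ξ) t) ⊓ (i.Γ ⊓ bmem (e η) t) ⊓ bmem (e ξ) (e η)) ∧
    ∀ ξ, i.a ξ = (i.Γ ⊓ bmem (e ξ) t) ⊓ bmem (e ξ) x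

theorem HasCode.le_beq {o : Ordinal.{u}} {i : Code B o} {x x' : BName B} (h : HasCode i x)
    (h' : HasCode i x') : i.Γ ≤ beq x x' := by
  obtain ⟨t1, e1, h1, s1, n1, m1, E1, a1⟩ := h
  obtain ⟨t2, e2, h2, s2, n2, m2, E2, a2⟩ := h'
  refine le_trans (le_inf ?_ ?_) (sub_inf_sub_le x x')
  · exact code_sub h1 h2 n1 n2 (fun ξ => (m1 ξ).symm.trans (m2 ξ))
      (fun ξ η => (E1 ξ η).symm.trans (E2 ξ η)) s1 (fun ξ => (a1 ξ).symm.trans (a2 ξ))
  · exact code_sub h2 h1 n2 n1 (fun ξ => (m2 ξ).symm.trans (m1 ξ))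
      (fun ξ η => (E2 ξ η).symm.trans (E1 ξ η)) s2 (fun ξ => (a2 ξ).symm.trans (a1 ξ))

/-- The name containing one set for each code. -/
noncomputable def WW (B : Type u) [CompleteBooleanAlgebra B] (o : Ordinal.{u}) : BName B :=
  mk {i : Code B o // ∃ x, HasCode i x} (fun i => i.2.choose) (fun i => i.1.Γ)

theorem mem_WW {o : Ordinal.{u}} {x t : BName B} {Γ : B} {p : Ordinal.{u}} (hp : p < o)
    (h1 : Γ ≤ (VB B).isTrans t) (h2 : Γ ≤ (VB B).sub x t)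
    (h3 : Γ ≤ (VB B).leCard t (check p.toZFSet)) : Γ ≤ bmem x (WW B o) := by
  obtain ⟨q, rfl⟩ : ∃ q : o.ToType, p = (Ordinal.ToType.mk.symm q).1 :=
    ⟨Ordinal.ToType.mk ⟨p, hp⟩, by simp⟩
  obtain ⟨e, he⟩ := exists_enum_of_le_leCard _ h3
  let i : Code B o := ⟨q, Γ, fun ξ => Γ ⊓ bmem (e ξ) t,
    fun ξ η => (Γ ⊓ bmem (e ξ) t) ⊓ (Γ ⊓ bmem (e η) t) ⊓ bmem (e ξ) (e η),
    fun ξ => (Γ ⊓ bmem (e ξ) t) ⊓ bmem (e ξ) x⟩
  have hi : HasCode i x := ⟨t, e, h1, h2, he, fun _ => rfl, fun _ _ => rfl, fun _ => rfl⟩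
  have hex : ∃ x, HasCode i x := ⟨x, hi⟩
  rw [WW, mem_mk]
  refine le_iSup_of_le ⟨i, hex⟩ (le_inf le_rfl ?_)
  exact hi.le_beq hex.choose_spec

theorem PC_holds : PCStatement.{u} := by
  intro B _ o
  let φ : BName B → B := fun x => ⨆ t, (VB B).isTrans t ⊓ (VB B).sub x t ⊓
    ⨆ ρ, (VB B).mem ρ (check o.toZFSet) ⊓ (VB B).leCard t ρ
  have hφ : Ext φ := Ext.iSup fun t => ((Ext.const _).inf (ext_sub_left t)).inf (Ext.const _)
  have hW : ∀ x, φ x ≤ bmem x (WW B o) := by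
    intro x
    refine iSup_le fun t => ?_
    rw [iSup_VBcheck (ext_leCard_right t), inf_iSup_eq]
    refine iSup_le fun r => ?_
    rw [inf_iSup_eq]
    refine iSup_le fun hr => ?_
    obtain ⟨p, hp, rfl⟩ := Ordinal.mem_toZFSet_iff.1 hr
    exact mem_WW hp (inf_le_left.trans inf_le_left) (inf_le_left.trans inf_le_right) inf_le_right
  refine ⟨sepn (WW B o) φ, ?_⟩
  refine eq_top_iff.2 (le_iInf fun x => ?_)
  have : (VB B).mem x (sepn (WW B o) φ) = φ x := by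
    rw [VB_mem, mem_sepn hφ, inf_eq_right.2 (hW x)]
  rw [this]
  change _ ≤ φ x ⇔ φ x
  rw [bihimp_self]

end Pool.Agent.Lib.MP_100a6c_lc.H90
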